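import Pool.Agent.Run7.h100.UN.Iface

/-!
# The piece INT of `Run7.h100.UN` (helper586)
-/

set_option autoImplicit false

namespace Run7.h586.UN

open Polynomial Run7.h100.UN

/-- `p ^ (n - i)` divides the coefficient `i` -/
def Dv {R : Type} [CommRing R] (p : R) (n : ℕ) (f : R[X]) : Prop := ∀ i ≤ n, p ^ (n - i) ∣ f.coeff i

theorem Dv.step {R : Type} [CommRing R] {p : R} {n : ℕ} {f : R[X]} (h : Dv p n f) (hn : f.natDegree ≤ n)
    (v : R) : Dv p (n + 1) ((X - C (p * v)) * f) := by
  intro i hi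
  rw [sub_mul, coeff_sub, coeff_C_mul]
  apply dvd_sub
  · rcases i with _ | i
    · rw [coeff_X_mul_zero]
      exact dvd_zero _
    · rw [coeff_X_mul]
      have := h i (by omega)
      rwa [Nat.add_sub_add_right]
  · rcases Nat.lt_or_ge n i with h1 | h1
    · have : i = n + 1 := by omega
      subst this
      rw [Nat.sub_self, pow_zero]
      exact one_dvd _
    · have h2 := h i h1
      have h3 : n + 1 - i = (n - i) + 1 := by omega
      rw [h3, pow_succ, mul_comm (p ^ (n - i)) p, mul_assoc]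
      exact mul_dvd_mul_left p (h2.mul_left v)

theorem Dv_prod {R : Type} [CommRing R] [IsDomain R] (p : R) (s : Multiset R) :
    Dv p (Multiset.card s) ((s.map fun v => X - C (p * v)).prod) ∧
      ((s.map fun v => X - C (p * v)).prod).natDegree ≤ Multiset.card s := by
  induction s using Multiset.induction_on with
  | empty =>
    refine ⟨fun i _ => ?_, by simp⟩
    have : (Multiset.card (0 : Multiset R)) - i = 0 := by simp
    rw [this, pow_zero]
    exact one_dvd _
  | cons v s ih =>
    rw [Multiset.map_cons, Multiset.prod_cons, Multiset.card_cons]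
    refine ⟨ih.1.step ih.2 v, ?_⟩
    refine natDegree_mul_le.trans ?_
    have h1 : (X - C (p * v)).natDegree = 1 := natDegree_X_sub_C _
    have h2 := ih.2
    omega

section padic

variable (p : ℕ) [Fact p.Prime]

/-- the inclusion of `ℤ_[p]` in the algebraic closure -/
noncomputable def io : ℤ_[p] →+* AlgebraicClosure ℚ_[p] :=
  (algebraMap ℚ_[p] (AlgebraicClosure ℚ_[p])).comp (algebraMap ℤ_[p] ℚ_[p])

theorem io_inj : Function.Injective (io p) :=
  (algebraMap ℚ_[p] (AlgebraicClosure ℚ_[p])).injective.comp (IsFractionRing.injective ℤ_[p] ℚ_[p])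

/-- an integral element of `ℚ_[p]` -/
theorem int_padic (u : ℚ_[p]) (hu : IsIntegral ℤ u) : ∃ u' : ℤ_[p], algebraMap ℤ_[p] ℚ_[p] u' = u :=
  IsIntegrallyClosed.algebraMap_eq_of_integral (hu.tower_top (A := ℤ_[p]))

theorem frob (u : ℤ_[p]) : ∃ v : ℤ_[p], u ^ p - u = p * v := by
  have h1 : u ^ p - u ∈ RingHom.ker (PadicInt.toZMod (p := p)) := by
    rw [RingHom.mem_ker, map_sub, map_pow, ZMod.pow_card, sub_self]
  rw [PadicInt.ker_toZMod, PadicInt.maximalIdeal_eq_span_p, Ideal.mem_span_singleton] at h1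
  exact h1

theorem conj (y : Qb) (hy : TPa p y) (hi : IsIntegral ℤ y) (ψ : Qb →+* AlgebraicClosure ℚ_[p]) :
    ∃ v : ℤ_[p], io p (p * v) = ψ (y ^ p - y) := by
  obtain ⟨u, hu⟩ := hy inferInstance ψ
  have h1 : IsIntegral ℤ (ψ y) := hi.map (ψ.toIntAlgHom)
  rw [hu] at h1
  have h2 : IsIntegral ℤ u := by
    rw [isIntegral_algebraMap_iff (algebraMap ℚ_[p] (AlgebraicClosure ℚ_[p])).injective] at h1
    exact h1
  obtain ⟨u', hu'⟩ := int_padic p u h2
  obtain ⟨v, hv⟩ := frob p u'
  refine ⟨v, ?_⟩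
  have h3 : io p u' = ψ y := by
    rw [hu, ← hu']
    rfl
  rw [← hv, map_sub, map_pow, h3, map_sub, map_pow]

theorem dvd_coeff (y : Qb) (hy : TPa p y) (hi : IsIntegral ℤ y) :
    ∀ i ≤ (minpoly ℤ (y ^ p - y)).natDegree,
      ((p : ℤ) ^ ((minpoly ℤ (y ^ p - y)).natDegree - i)) ∣ (minpoly ℤ (y ^ p - y)).coeff i := by
  classical
  set x : Qb := y ^ p - y with hx
  have hxi : IsIntegral ℤ x := (hi.pow p).sub hi
  set g : ℤ[X] := minpoly ℤ x with hg
  have hgm : g.Monic := minpoly.monic hxi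
  set Cc := AlgebraicClosure ℚ_[p] with hC
  set gC : Cc[X] := g.map (Int.castRingHom Cc) with hgC
  have hq : minpoly ℚ x = g.map (algebraMap ℤ ℚ) := minpoly.isIntegrallyClosed_eq_field_fractions' ℚ hxi
  have hroot : ∀ w ∈ gC.roots, ∃ v : ℤ_[p], io p (p * v) = w := by
    intro w hw
    have h1 : gC = (minpoly ℚ x).map (algebraMap ℚ Cc) := by
      rw [hq, Polynomial.map_map, hgC]
      congr 1
    have h2 : w ∈ (minpoly ℚ x).rootSet Cc := by
      rw [Polynomial.rootSet_def, Polynomial.aroots_def, ← h1]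
      simpa using hw
    have hAlg : Algebra.IsAlgebraic ℚ Qb := AlgebraicClosure.isAlgebraic ℚ
    rw [← Algebra.IsAlgebraic.range_eval_eq_rootSet_minpoly (F := ℚ) (K := Qb) Cc x] at h2
    obtain ⟨ψ, hψ⟩ := h2
    obtain ⟨v, hv⟩ := conj p y hy hi (ψ : Qb →+* Cc)
    exact ⟨v, hv.trans hψ⟩
  let V : Cc → ℤ_[p] := fun w => if h : ∃ v : ℤ_[p], io p (p * v) = w then h.choose else 0
  have hV : ∀ w ∈ gC.roots, io p (p * V w) = w := by
    intro w hw
    have h1 := hroot w hw
    change io p (p * (if h : ∃ v : ℤ_[p], io p (p * v) = w then h.choose else 0)) = w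
    rw [dif_pos h1]
    exact h1.choose_spec
  have hgCm : gC.Monic := hgm.map _
  have hsplit : (gC.roots.map fun w => X - C w).prod = gC := by
    have h1 := IsAlgClosed.splits gC
    rw [Polynomial.Splits.eq_prod_roots_of_monic h1 hgCm] 
    simp
  have hcard : Multiset.card gC.roots = g.natDegree := by
    have h1 : Multiset.card gC.roots = gC.natDegree := IsAlgClosed.card_roots_eq_natDegree
    rw [h1, hgC, Polynomial.natDegree_map_eq_of_injective (RingHom.injective_int _)]
  set Q : ℤ_[p][X] := ((gC.roots.map V).map fun v => X - C ((p : ℤ_[p]) * v)).prod with hQ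
  have hQg : Q = g.map (Int.castRingHom ℤ_[p]) := by
    apply Polynomial.map_injective (io p) (io_inj p)
    rw [Polynomial.map_map, hQ, Polynomial.map_multiset_prod, Multiset.map_map, Multiset.map_map]
    have e1 : (io p).comp (Int.castRingHom ℤ_[p]) = Int.castRingHom Cc := RingHom.ext_int _ _
    rw [e1, ← hgC, ← hsplit]
    congr 1
    rw [hsplit]
    refine Multiset.map_congr rfl fun w hw => ?_
    simp only [Function.comp_apply, Polynomial.map_sub, Polynomial.map_X, Polynomial.map_C]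
    rw [hV w hw]
  have hD := (Dv_prod (p : ℤ_[p]) (gC.roots.map V)).1
  rw [← hQ, Multiset.card_map, hcard, hQg] at hD
  intro i hi'
  have h1 := hD i hi'
  rw [Polynomial.coeff_map] at h1
  have h2 := (PadicInt.pow_p_dvd_int_iff (p := p) (g.natDegree - i) (g.coeff i)).1 (by simpa using h1)
  exact_mod_cast h2

end padic

theorem t_INT : S_INT := by
  intro p hp y hy hi
  have : Fact p.Prime := ⟨hp⟩
  set x : Qb := y ^ p - y with hx
  have hxi : IsIntegral ℤ x := (hi.pow p).sub hi
  have hdv := dvd_coeff p y hy hi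
  rw [← hx] at hdv
  set g : ℤ[X] := minpoly ℤ x with hg
  have hgm : g.Monic := minpoly.monic hxi
  set n := g.natDegree with hn
  have hp0 : (p : Qb) ≠ 0 := by exact_mod_cast hp.ne_zero
  choose! c hc using hdv
  refine ⟨X ^ n + ∑ i : Fin n, C (c i) * X ^ (i : ℕ), monic_X_pow_add (degree_sum_fin_lt _), ?_⟩
  rw [← aeval_def]
  have h1 : aeval x g = 0 := minpoly.aeval ℤ x
  rw [aeval_eq_sum_range, Finset.sum_range_succ, ← hn] at h1
  have hlead : g.coeff n = 1 := hgm
  rw [hlead, one_smul] at h1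
  have h2 : (p : Qb) ^ n * aeval (x / (p : Qb)) (X ^ n + ∑ i : Fin n, C (c i) * X ^ (i : ℕ)) = 0 := by
    rw [← h1, map_add, map_pow, aeval_X, map_sum, mul_add, add_comm, Finset.sum_range, Finset.mul_sum]
    congr 1
    · refine Finset.sum_congr rfl fun i _ => ?_
      rw [map_mul, map_pow, aeval_X, aeval_C, hc i i.2.le, div_pow, zsmul_eq_mul]
      have e1 : (p : Qb) ^ n = (p : Qb) ^ (n - (i : ℕ)) * (p : Qb) ^ (i : ℕ) := by
        rw [← pow_add]
        congr 1
        have := i.2
        omega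
      rw [e1]
      have e2 : (algebraMap ℤ Qb) (c i) = ((c i : ℤ) : Qb) := rfl
      rw [e2]
      push_cast
      field_simp
    · rw [div_pow]
      field_simp
  exact (mul_eq_zero.1 h2).resolve_left (pow_ne_zero _ hp0)

end Run7.h586.UN
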